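import Pool.Agent.Helper25.LS.Defs

/-! Project LS, packet SU: almost all of a bounded additive energy is carried by a
finite-dimensional subspace. -/

set_option autoImplicit false

namespace Pool.Agent.Helper3.LS

open Pool.Agent.Helper25.LS

theorem orthonormal_append {H : Type} [NormedAddCommGroup H] [InnerProductSpace ℂ H] {m n : ℕ}
    {u : Fin m → H} {v : Fin n → H} (hu : Orthonormal ℂ u) (hv : Orthonormal ℂ v)
    (h : ∀ k, v k ∈ (Submodule.span ℂ (Set.range u))ᗮ) : Orthonormal ℂ (Fin.append u v) := by
  have huv : ∀ i j, inner ℂ (u i) (v j) = 0 := fun i j =>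
    (Submodule.mem_orthogonal _ _).1 (h j) (u i) (Submodule.subset_span ⟨i, rfl⟩)
  have hvu : ∀ i j, inner ℂ (v j) (u i) = 0 := fun i j =>
    inner_eq_zero_symm.1 (huv i j)
  constructor
  · intro i
    refine Fin.addCases (fun a => ?_) (fun b => ?_) i
    · rw [Fin.append_left]; exact hu.1 a
    · rw [Fin.append_right]; exact hv.1 b
  · intro i j hij
    revert hij
    refine Fin.addCases (fun a => ?_) (fun b => ?_) i
    · refine Fin.addCases (fun a' => ?_) (fun b' => ?_) j
      · intro hij
        rw [Fin.append_left, Fin.append_left]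
        exact hu.2 fun hc => hij (by rw [hc])
      · intro hij
        rw [Fin.append_left, Fin.append_right]
        exact huv a b'
    · refine Fin.addCases (fun a' => ?_) (fun b' => ?_) j
      · intro hij
        rw [Fin.append_left, Fin.append_right]
        exact hvu a' b
      · intro hij
        rw [Fin.append_right, Fin.append_right]
        exact hv.2 fun hc => hij (by rw [hc])

/-- **SU** -/
theorem su : S_SU := by
  intro H _ _ e B he hB ε hε
  set S : Set ℝ := {r | ∃ (m : ℕ) (u : Fin m → H), Orthonormal ℂ u ∧ r = ∑ k, e (u k)} with hS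
  have hne : S.Nonempty := by
    refine ⟨0, 0, Fin.elim0, ⟨fun i => i.elim0, fun i => i.elim0⟩, by simp⟩
  have hbd : BddAbove S := ⟨B, by
    rintro r ⟨m, u, hu, rfl⟩
    exact hB m u hu⟩
  obtain ⟨r, ⟨m₀, u₀, hu₀, rfl⟩, hr⟩ := exists_lt_of_lt_csSup hne
    (show sSup S - ε < sSup S by linarith)
  refine ⟨Submodule.span ℂ (Set.range u₀), FiniteDimensional.span_of_finite ℂ (Set.finite_range u₀),
    fun m u hu h => ?_⟩
  have h1 := orthonormal_append hu₀ hu h
  have h2 : ∑ k, e (Fin.append u₀ u k) ≤ sSup S := le_csSup hbd ⟨m₀ + m, _, h1, rfl⟩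
  rw [Fin.sum_univ_add] at h2
  simp only [Fin.append_left, Fin.append_right] at h2
  linarith

end Pool.Agent.Helper3.LS
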