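import Pool.Agent.Helper3.LS.Pairing

/-!
LemS, part 1: construction of the elementary abelian subgroup `E`.
-/

set_option autoImplicit false

namespace Pool.Agent.Helper3.LS

open Pool.Agent.Helper12.TwoLen

variable {G : Type*} [Group G]

/-- The hypotheses of LemS in the ambient group. -/
structure Hyp (Γ Z D : Subgroup G) (s z₀ : G) (c : ℕ) : Prop where
  ctx : Ctx Γ s
  nDΓ : Nrm D Γ
  nDZ : Nrm D Z
  zle : Z ≤ Γ
  zc : ∀ z ∈ Z, ∀ g ∈ Γ, z * g = g * z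
  sq : ∀ g ∈ Γ, g * g ∈ Z
  z0 : ∀ z ∈ Z, ∃ y ∈ Z, z = y * y ∨ z = z₀ * (y * y)
  big : ∀ b ∈ D, b ≠ 1 → ∀ T : Subgroup G, T ≤ Γ →
      (∀ g ∈ T, ∀ h ∈ Γ, (b * g * b⁻¹ * g⁻¹) * h = h * (b * g * b⁻¹ * g⁻¹)) →
      c < T.relIndex Γ

/-- `T_b`: elements of `Γ` moved by `b` by a central element. -/
def Tb (Γ : Subgroup G) (b : G) : Subgroup G where
  carrier := {g | g ∈ Γ ∧ ∀ h ∈ Γ, (b * g * b⁻¹ * g⁻¹) * h = h * (b * g * b⁻¹ * g⁻¹)}
  one_mem' := ⟨Γ.one_mem, fun h _ => by simp⟩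
  mul_mem' := by
    rintro g g' ⟨hg, h1⟩ ⟨hg', h2⟩
    refine ⟨Γ.mul_mem hg hg', fun h hh => ?_⟩
    have h3 : b * (g * g') * b⁻¹ * (g * g')⁻¹
        = (b * g * b⁻¹ * g⁻¹) * (b * g' * b⁻¹ * g'⁻¹) := by
      calc b * (g * g') * b⁻¹ * (g * g')⁻¹
          = b * g * b⁻¹ * ((b * g' * b⁻¹ * g'⁻¹) * g⁻¹) := by group
        _ = b * g * b⁻¹ * (g⁻¹ * (b * g' * b⁻¹ * g'⁻¹)) := by rw [h2 g⁻¹ (Γ.inv_mem hg)]
        _ = _ := by group
    rw [h3]
    calc (b * g * b⁻¹ * g⁻¹) * (b * g' * b⁻¹ * g'⁻¹) * h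
        = (b * g * b⁻¹ * g⁻¹) * ((b * g' * b⁻¹ * g'⁻¹) * h) := by group
      _ = (b * g * b⁻¹ * g⁻¹) * (h * (b * g' * b⁻¹ * g'⁻¹)) := by rw [h2 h hh]
      _ = ((b * g * b⁻¹ * g⁻¹) * h) * (b * g' * b⁻¹ * g'⁻¹) := by group
      _ = (h * (b * g * b⁻¹ * g⁻¹)) * (b * g' * b⁻¹ * g'⁻¹) := by rw [h1 h hh]
      _ = _ := by group
  inv_mem' := by
    rintro g ⟨hg, h1⟩
    refine ⟨Γ.inv_mem hg, fun h hh => ?_⟩
    have h3 : b * g⁻¹ * b⁻¹ * g⁻¹⁻¹ = (b * g * b⁻¹ * g⁻¹)⁻¹ := by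
      have h4 := h1 g hg
      have h5 : b * g * b⁻¹ = g * (b * g * b⁻¹ * g⁻¹) := by
        rw [← h4]; group
      calc b * g⁻¹ * b⁻¹ * g⁻¹⁻¹ = (b * g * b⁻¹)⁻¹ * g := by group
        _ = (g * (b * g * b⁻¹ * g⁻¹))⁻¹ * g := by rw [← h5]
        _ = (b * g * b⁻¹ * g⁻¹)⁻¹ * (g⁻¹ * g) := by group
        _ = (b * g * b⁻¹ * g⁻¹)⁻¹ := by rw [inv_mul_cancel, mul_one]
    rw [h3]
    have h6 := h1 h hh
    calc (b * g * b⁻¹ * g⁻¹)⁻¹ * h
        = (b * g * b⁻¹ * g⁻¹)⁻¹ * (h * (b * g * b⁻¹ * g⁻¹)) * (b * g * b⁻¹ * g⁻¹)⁻¹ := by group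
      _ = (b * g * b⁻¹ * g⁻¹)⁻¹ * ((b * g * b⁻¹ * g⁻¹) * h) * (b * g * b⁻¹ * g⁻¹)⁻¹ := by
          rw [h6]
      _ = _ := by group

theorem mem_Tb {Γ : Subgroup G} {b g : G} : g ∈ Tb Γ b ↔
    g ∈ Γ ∧ ∀ h ∈ Γ, (b * g * b⁻¹ * g⁻¹) * h = h * (b * g * b⁻¹ * g⁻¹) := Iff.rfl

theorem Tb_le (Γ : Subgroup G) (b : G) : Tb Γ b ≤ Γ := fun _ hg => hg.1

variable {Γ Z D : Subgroup G} {s z₀ : G} {c : ℕ}

theorem Hyp.card_Tb [Finite G] (H : Hyp Γ Z D s z₀ c) {b : G} (hb : b ∈ D) (hb1 : b ≠ 1) :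
    c * Nat.card (Tb Γ b) ≤ Nat.card Γ := by
  have h1 := H.big b hb hb1 (Tb Γ b) (fun g hg => hg.1) (fun g hg => hg.2)
  have h2 : Nat.card (Tb Γ b) * (Tb Γ b).relIndex Γ = Nat.card Γ := by
    have h3 := Subgroup.card_mul_index ((Tb Γ b).subgroupOf Γ)
    rw [Subgroup.relIndex, ← h3]
    congr 1
    exact (Nat.card_congr (Subgroup.subgroupOfEquivOfLe (Tb_le Γ b)).toEquiv).symm
  rw [← h2, mul_comm]
  exact Nat.mul_le_mul_left _ h1.le

/-- choose_next. -/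
theorem Hyp.choose_next [Finite G] (H : Hyp Γ Z D s z₀ c) {ι κ : Type*} [Finite ι] [Finite κ]
    (w : ι → G) (hw : ∀ i, w i ∈ Γ) (w' : κ → G)
    (hc : Nat.card D * Nat.card κ * 2 ^ (Nat.card D * Nat.card ι) ≤ c) :
    ∃ u ∈ Γ, (∀ i, ∀ d ∈ D, u * (d * w i * d⁻¹) = (d * w i * d⁻¹) * u) ∧
      ∀ k, ∀ b ∈ D, b ≠ 1 → u * w' k ∉ Tb Γ b := by
  classical
  by_contra hcon
  push Not at hcon
  -- the subgroup of elements satisfying the commuting condition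
  let S0 : Subgroup G := Γ ⊓ Subgroup.centralizer {x | ∃ i, ∃ d ∈ D, x = d * w i * d⁻¹}
  have hS0 : ∀ g, g ∈ S0 ↔ g ∈ Γ ∧ ∀ i, ∀ d ∈ D, g * (d * w i * d⁻¹) = (d * w i * d⁻¹) * g := by
    intro g
    rw [Subgroup.mem_inf, Subgroup.mem_centralizer_iff]
    constructor
    · rintro ⟨h1, h2⟩
      exact ⟨h1, fun i d hd => (h2 _ ⟨i, d, hd, rfl⟩).symm⟩
    · rintro ⟨h1, h2⟩
      refine ⟨h1, ?_⟩
      rintro _ ⟨i, d, hd, rfl⟩
      exact (h2 i d hd).symm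
  have h1 : Nat.card Γ ≤ Nat.card S0 * 2 ^ (Nat.card D * Nat.card ι) := by
    have h2 := H.ctx.card_comm_ge (ι := D × ι) (fun p => (p.1 : G) * w p.2 * (p.1 : G)⁻¹)
      (fun p => H.nDΓ _ p.1.2 _ (hw p.2)) S0 (fun g hg h3 => (hS0 g).2
        ⟨hg, fun i d hd => h3 (⟨d, hd⟩, i)⟩)
    rwa [Nat.card_prod] at h2
  have h2 : ∀ g : S0, ∃ p : κ × {b : D // b ≠ 1}, (g : G) * w' p.1 ∈ Tb Γ (p.2 : G) := by
    intro g
    obtain ⟨h3, h4⟩ := (hS0 g).1 g.2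
    obtain ⟨k, b, hb, hb1, h5⟩ := hcon g h3 h4
    exact ⟨(k, ⟨⟨b, hb⟩, fun h => hb1 (congrArg Subtype.val h)⟩), h5⟩
  choose p hp using h2
  have : Fintype (κ × {b : D // b ≠ 1}) := Fintype.ofFinite _
  have h3 : Nat.card S0 ≤ Nat.card (Σ q : κ × {b : D // b ≠ 1}, Tb Γ (q.2 : G)) := by
    refine Nat.card_le_card_of_injective (fun g => ⟨p g, ⟨(g : G) * w' (p g).1, hp g⟩⟩) ?_
    intro a b h
    have h4 : p a = p b := congrArg Sigma.fst h
    have h5 : (a : G) * w' (p a).1 = (b : G) * w' (p b).1 := by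
      have := congrArg (fun x : (Σ q : κ × {b : D // b ≠ 1}, Tb Γ (q.2 : G)) => (x.2 : G)) h
      exact this
    rw [h4] at h5
    exact Subtype.ext (mul_right_cancel h5)
  rw [Nat.card_sigma] at h3
  have h4 : c * Nat.card S0 ≤ (Nat.card κ * Nat.card {b : D // b ≠ 1}) * Nat.card Γ := by
    calc c * Nat.card S0 ≤ c * ∑ q : κ × {b : D // b ≠ 1}, Nat.card (Tb Γ (q.2 : G)) :=
          Nat.mul_le_mul_left _ h3
      _ = ∑ q : κ × {b : D // b ≠ 1}, c * Nat.card (Tb Γ (q.2 : G)) := Finset.mul_sum _ _ _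
      _ ≤ ∑ _q : κ × {b : D // b ≠ 1}, Nat.card Γ := by
          apply Finset.sum_le_sum
          intro q _
          apply H.card_Tb q.2.1.2
          intro h
          exact q.2.2 (Subtype.ext h)
      _ = (Nat.card κ * Nat.card {b : D // b ≠ 1}) * Nat.card Γ := by
          rw [Finset.sum_const, smul_eq_mul, Finset.card_univ, ← Nat.card_eq_fintype_card,
            Nat.card_prod]
  have h5 : Nat.card {b : D // b ≠ 1} < Nat.card D := by
    have := Fintype.ofFinite D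
    rw [Nat.card_eq_fintype_card, Nat.card_eq_fintype_card]
    exact Fintype.card_subtype_lt (p := fun b : D => b ≠ 1) (x := 1) (by simp)
  have hκ : 0 < Nat.card κ := by
    obtain ⟨q, -⟩ : ∃ q : κ × {b : D // b ≠ 1}, True := ⟨p 1, trivial⟩
    have : Nonempty κ := ⟨q.1⟩
    exact Nat.card_pos
  have hS0pos : 0 < Nat.card S0 := Nat.card_pos
  have h6 : c * Nat.card S0
      ≤ (Nat.card κ * Nat.card {b : D // b ≠ 1} * 2 ^ (Nat.card D * Nat.card ι))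
        * Nat.card S0 := by
    calc c * Nat.card S0 ≤ (Nat.card κ * Nat.card {b : D // b ≠ 1}) * Nat.card Γ := h4
      _ ≤ (Nat.card κ * Nat.card {b : D // b ≠ 1}) *
          (Nat.card S0 * 2 ^ (Nat.card D * Nat.card ι)) := Nat.mul_le_mul_left _ h1
      _ = _ := by ring
  have h7 := Nat.le_of_mul_le_mul_right h6 hS0pos
  have h8 : Nat.card κ * Nat.card {b : D // b ≠ 1} * 2 ^ (Nat.card D * Nat.card ι)
      < Nat.card D * Nat.card κ * 2 ^ (Nat.card D * Nat.card ι) := by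
    apply Nat.mul_lt_mul_of_pos_right _ (by positivity)
    rw [mul_comm (Nat.card D)]
    exact Nat.mul_lt_mul_of_pos_left h5 hκ
  omega

/-- elements central in `Γ` belong to `T_b` when `b` normalises `Z`. -/
theorem Hyp.Z_le_Tb (H : Hyp Γ Z D s z₀ c) {b : G} (hb : b ∈ D) : Z ≤ Tb Γ b := by
  intro z hz
  refine ⟨H.zle hz, fun h hh => ?_⟩
  have h1 : b * z * b⁻¹ * z⁻¹ ∈ Z := Z.mul_mem (H.nDZ b hb z hz) (Z.inv_mem hz)
  exact H.zc _ h1 h hh

/-- the property of the subgroups `E_j`. -/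
structure PE (Γ D : Subgroup G) (j : ℕ) (E : Subgroup G) : Prop where
  le : E ≤ Γ
  card : Nat.card E = 2 ^ j
  inv2 : ∀ x ∈ E, x * x = 1
  comm : ∀ x ∈ E, ∀ y ∈ E, ∀ d ∈ D, x * (d * y * d⁻¹) = (d * y * d⁻¹) * x
  good : ∀ x ∈ E, x ≠ 1 → ∀ b ∈ D, b ≠ 1 → x ∉ Tb Γ b

/-- the sequence `u_0, u_1, ...`. -/
theorem Hyp.seq [Finite G] (H : Hyp Γ Z D s z₀ c) {E : Subgroup G} (hE : E ≤ Γ) (T : ℕ)
    (hc : Nat.card D * (T * Nat.card E) * 2 ^ (Nat.card D * (Nat.card E + T)) ≤ c) :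
    ∀ n ≤ T, ∃ u : ℕ → G, ∀ q < n, u q ∈ Γ ∧
      (∀ w ∈ E, ∀ d ∈ D, u q * (d * w * d⁻¹) = (d * w * d⁻¹) * u q) ∧
      (∀ p < q, ∀ d ∈ D, u q * (d * u p * d⁻¹) = (d * u p * d⁻¹) * u q) ∧
      (∀ p < q, ∀ w ∈ E, ∀ b ∈ D, b ≠ 1 → u q * ((u p)⁻¹ * w) ∉ Tb Γ b) := by
  intro n
  induction n with
  | zero => intro _; exact ⟨fun _ => 1, fun q hq => absurd hq (by omega)⟩
  | succ n ih =>
    intro hn
    obtain ⟨u, hu⟩ := ih (by omega)
    let w : E ⊕ Fin n → G := Sum.elim (fun x => (x : G)) (fun p => u p)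
    have hw : ∀ i, w i ∈ Γ := by
      rintro (x | p)
      · exact hE x.2
      · exact (hu p p.2).1
    let w' : Fin n × E → G := fun k => (u k.1)⁻¹ * (k.2 : G)
    have hc' : Nat.card D * Nat.card (Fin n × E) * 2 ^ (Nat.card D * Nat.card (E ⊕ Fin n))
        ≤ c := by
      refine le_trans ?_ hc
      rw [Nat.card_prod, Nat.card_sum, Nat.card_fin]
      have h1 : n ≤ T := by omega
      gcongr
      norm_num
    obtain ⟨x, hx, hx1, hx2⟩ := H.choose_next w hw w' hc'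
    refine ⟨Function.update u n x, ?_⟩
    intro q hq
    have hold : ∀ p, p < n → Function.update u n x p = u p := by
      intro p hp
      rw [Function.update_of_ne (by omega)]
    by_cases hqn : q = n
    · subst hqn
      rw [Function.update_self]
      refine ⟨hx, fun v hv d hd => hx1 (Sum.inl ⟨v, hv⟩) d hd, fun p hp d hd => ?_,
        fun p hp v hv b hb hb1 => ?_⟩
      · rw [hold p hp]; exact hx1 (Sum.inr ⟨p, hp⟩) d hd
      · rw [hold p hp]; exact hx2 (⟨p, hp⟩, ⟨v, hv⟩) b hb hb1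
    · have hq' : q < n := by omega
      obtain ⟨h1, h2, h3, h4⟩ := hu q hq'
      rw [hold q hq']
      refine ⟨h1, h2, fun p hp d hd => ?_, fun p hp v hv b hb hb1 => ?_⟩
      · rw [hold p (by omega)]; exact h3 p hp d hd
      · rw [hold p (by omega)]; exact h4 p hp v hv b hb hb1

/-- pigeonhole: two members of the sequence with the same invariants. -/
theorem Hyp.pair [Finite G] (H : Hyp Γ Z D s z₀ c) {E : Subgroup G} (hE : E ≤ Γ) (T : ℕ)
    (hT : 2 ^ (Nat.card D + 1) < T)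
    (hc : Nat.card D * (T * Nat.card E) * 2 ^ (Nat.card D * (Nat.card E + T)) ≤ c) :
    ∃ a ∈ Γ, ∃ e ∈ Γ, (∀ w ∈ E, ∀ d ∈ D, a * (d * w * d⁻¹) = (d * w * d⁻¹) * a) ∧
      (∀ w ∈ E, ∀ d ∈ D, e * (d * w * d⁻¹) = (d * w * d⁻¹) * e) ∧
      (∀ d ∈ D, e * (d * a * d⁻¹) = (d * a * d⁻¹) * e) ∧
      (∀ w ∈ E, ∀ b ∈ D, b ≠ 1 → e * (a⁻¹ * w) ∉ Tb Γ b) ∧
      (∀ d ∈ D, ep a (d * a * d⁻¹) = ep e (d * e * d⁻¹)) ∧
      ((∃ y ∈ Z, a * a = y * y) ↔ (∃ y ∈ Z, e * e = y * y)) := by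
  classical
  obtain ⟨u, hu⟩ := H.seq hE T hc T le_rfl
  have := Fintype.ofFinite D
  let f : Fin T → (D → ℤˣ) × Bool := fun q =>
    (fun d => ep (u q) ((d : G) * u q * (d : G)⁻¹), decide (∃ y ∈ Z, u q * u q = y * y))
  have hcard : Fintype.card ((D → ℤˣ) × Bool) < Fintype.card (Fin T) := by
    rw [Fintype.card_prod, Fintype.card_fun, Fintype.card_bool, Fintype.card_fin]
    have h1 : Fintype.card ℤˣ = 2 := rfl
    rw [h1, ← pow_succ, ← Nat.card_eq_fintype_card]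
    exact hT
  obtain ⟨p, q, hpq, hf⟩ : ∃ p q : Fin T, p < q ∧ f p = f q := by
    obtain ⟨p, q, hne, hf⟩ := Fintype.exists_ne_map_eq_of_card_lt f hcard
    rcases lt_or_gt_of_ne hne with h | h
    · exact ⟨p, q, h, hf⟩
    · exact ⟨q, p, h, hf.symm⟩
  obtain ⟨hp1, hp2, -, -⟩ := hu p p.2
  obtain ⟨hq1, hq2, hq3, hq4⟩ := hu q q.2
  refine ⟨u p, hp1, u q, hq1, hp2, hq2, hq3 p hpq, hq4 p hpq, ?_, ?_⟩
  · intro d hd
    have h1 : (f p).1 ⟨d, hd⟩ = (f q).1 ⟨d, hd⟩ := by rw [hf]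
    exact h1
  · have h1 : (f p).2 = (f q).2 := by rw [hf]
    have h2 : decide (∃ y ∈ Z, u p * u p = y * y) = decide (∃ y ∈ Z, u q * u q = y * y) := h1
    exact decide_eq_decide.1 h2

/-- The new element `x`. -/
theorem Hyp.newx [Finite G] (H : Hyp Γ Z D s z₀ c) {E : Subgroup G} (hE : E ≤ Γ) (T : ℕ)
    (hT : 2 ^ (Nat.card D + 1) < T)
    (hc : Nat.card D * (T * Nat.card E) * 2 ^ (Nat.card D * (Nat.card E + T)) ≤ c) :
    ∃ x ∈ Γ, x * x = 1 ∧ (∀ w ∈ E, ∀ d ∈ D, x * (d * w * d⁻¹) = (d * w * d⁻¹) * x) ∧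
      (∀ d ∈ D, x * (d * x * d⁻¹) = (d * x * d⁻¹) * x) ∧
      (∀ w ∈ E, ∀ b ∈ D, b ≠ 1 → x * w ∉ Tb Γ b) := by
  obtain ⟨a, ha, e, he, haE, heE, hea, hgood, hep, hsq⟩ := H.pair hE T hT hc
  -- the correction `ζ`
  obtain ⟨z, hz, hz2⟩ : ∃ z ∈ Z, a⁻¹ * a⁻¹ * (e * e) * (z * z) = 1 := by
    have key : ∀ r y y' : G, y ∈ Z → y' ∈ Z → a * a = r * (y * y) → e * e = r * (y' * y') →
        ∃ z ∈ Z, a⁻¹ * a⁻¹ * (e * e) * (z * z) = 1 := by
      intro r y y' hy hy' h1 h2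
      refine ⟨y'⁻¹ * y, Z.mul_mem (Z.inv_mem hy') hy, ?_⟩
      have h3 : a⁻¹ * a⁻¹ = (a * a)⁻¹ := by group
      have h4 : y * y' = y' * y := H.zc y hy y' (H.zle hy')
      have h5 : Commute y y' := h4
      have h6 : Commute y⁻¹ y' := h5.inv_left
      have h7 : Commute y y'⁻¹ := h5.inv_right
      rw [h3, h1, h2]
      calc (r * (y * y))⁻¹ * (r * (y' * y')) * (y'⁻¹ * y * (y'⁻¹ * y))
          = y⁻¹ * y⁻¹ * (y' * y') * (y'⁻¹ * (y * y'⁻¹) * y) := by group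
        _ = y⁻¹ * y⁻¹ * (y' * y') * (y'⁻¹ * (y'⁻¹ * y) * y) := by rw [h7.eq]
        _ = 1 := by group
    by_cases h1 : ∃ y ∈ Z, a * a = y * y
    · obtain ⟨y, hy, h2⟩ := h1
      obtain ⟨y', hy', h3⟩ := hsq.1 ⟨y, hy, h2⟩
      exact key 1 y y' hy hy' (by rw [one_mul]; exact h2) (by rw [one_mul]; exact h3)
    · obtain ⟨y, hy, h2⟩ := H.z0 _ (H.sq a ha)
      obtain ⟨y', hy', h3⟩ := H.z0 _ (H.sq e he)
      have h2' := h2.resolve_left (fun h => h1 ⟨y, hy, h⟩)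
      have h3' := h3.resolve_left (fun h => h1 (hsq.2 ⟨y', hy', h⟩))
      exact key z₀ y y' hy hy' h2' h3'
  have hzΓ : z ∈ Γ := H.zle hz
  have hcomm : ∀ g ∈ Γ, z * g = g * z := H.zc z hz
  by_cases hD1 : (1 : G) ∈ D
  swap
  · exact absurd D.one_mem hD1
  have hea1 : e * a = a * e := by
    have := hea 1 hD1
    simpa using this
  have hea2 : e * a⁻¹ = a⁻¹ * e := by
    have h5 : Commute e a := hea1
    exact h5.inv_right.eq
  have hai : a⁻¹ ∈ Γ := Γ.inv_mem ha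
  have hx : a⁻¹ * e * z ∈ Γ := Γ.mul_mem (Γ.mul_mem hai he) hzΓ
  have c := H.ctx
  have hepz : ∀ g ∈ Γ, ep z g = 1 := fun g hg => ep_eq_one.2 (hcomm g hg)
  refine ⟨a⁻¹ * e * z, hx, ?_, ?_, ?_, ?_⟩
  · calc a⁻¹ * e * z * (a⁻¹ * e * z) = a⁻¹ * e * (z * (a⁻¹ * e)) * z := by group
      _ = a⁻¹ * e * ((a⁻¹ * e) * z) * z := by rw [hcomm _ (Γ.mul_mem hai he)]
      _ = a⁻¹ * (e * a⁻¹) * e * (z * z) := by group
      _ = a⁻¹ * (a⁻¹ * e) * e * (z * z) := by rw [hea2]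
      _ = a⁻¹ * a⁻¹ * (e * e) * (z * z) := by group
      _ = 1 := hz2
  · intro w hw d hd
    have hdw : d * w * d⁻¹ ∈ Γ := H.nDΓ d hd w (hE hw)
    apply ep_eq_one.1
    rw [c.ep_mul_left (Γ.mul_mem hai he) hzΓ hdw, c.ep_mul_left hai he hdw,
      c.ep_inv_left ha hdw, hepz _ hdw, ep_eq_one.2 (haE w hw d hd), ep_eq_one.2 (heE w hw d hd)]
    simp
  · intro d hd
    have hda : d * a * d⁻¹ ∈ Γ := H.nDΓ d hd a ha
    have hdai : d * a⁻¹ * d⁻¹ ∈ Γ := H.nDΓ d hd _ hai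
    have hde : d * e * d⁻¹ ∈ Γ := H.nDΓ d hd e he
    have hdz : d * z * d⁻¹ ∈ Γ := H.nDΓ d hd z hzΓ
    have hdzc : ∀ g ∈ Γ, ep g (d * z * d⁻¹) = 1 := by
      intro g hg
      rw [ep_symm]
      exact ep_eq_one.2 (H.zc _ (H.nDZ d hd z hz) g hg)
    have h1 : d * (a⁻¹ * e * z) * d⁻¹ = (d * a * d⁻¹)⁻¹ * (d * e * d⁻¹) * (d * z * d⁻¹) := by
      group
    have hdai' : (d * a * d⁻¹)⁻¹ ∈ Γ := Γ.inv_mem hda
    have hae : ep a (d * e * d⁻¹) = 1 := by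
      rw [ep_conj', ep_symm]
      have h2 := hea d⁻¹ (D.inv_mem hd)
      rw [inv_inv] at h2
      exact ep_eq_one.2 h2
    apply ep_eq_one.1
    rw [h1, c.ep_mul_left (Γ.mul_mem hai he) hzΓ (Γ.mul_mem (Γ.mul_mem hdai' hde) hdz),
      hepz _ (Γ.mul_mem (Γ.mul_mem hdai' hde) hdz), mul_one,
      c.ep_mul_right (Γ.mul_mem hai he) (Γ.mul_mem hdai' hde) hdz,
      hdzc _ (Γ.mul_mem hai he), mul_one, c.ep_mul_right (Γ.mul_mem hai he) hdai' hde,
      c.ep_mul_left hai he hdai', c.ep_mul_left hai he hde, c.ep_inv_left ha hdai',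
      c.ep_inv_left ha hde, c.ep_inv_right ha hda, c.ep_inv_right he hda, hae,
      ep_eq_one.2 (hea d hd), hep d hd]
    simp
  · intro w hw b hb hb1 hmem
    apply hgood w hw b hb hb1
    have hwΓ : w ∈ Γ := hE hw
    have h1 : e * (a⁻¹ * w) = a⁻¹ * e * z * w * z⁻¹ := by
      calc e * (a⁻¹ * w) = (e * a⁻¹) * w := by group
        _ = (a⁻¹ * e) * w := by rw [hea2]
        _ = a⁻¹ * e * (w * z) * z⁻¹ := by group
        _ = a⁻¹ * e * (z * w) * z⁻¹ := by rw [hcomm w hwΓ]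
        _ = _ := by group
    rw [h1]
    exact (Tb Γ b).mul_mem hmem ((Tb Γ b).inv_mem (H.Z_le_Tb hb hz))

/-- `E ∪ xE` for an involution `x` commuting with `E`. -/
def ext (E : Subgroup G) (x : G) (hx : x * x = 1) (hc : ∀ w ∈ E, x * w = w * x) :
    Subgroup G where
  carrier := {g | g ∈ E ∨ x * g ∈ E}
  one_mem' := Or.inl E.one_mem
  mul_mem' := by
    rintro g h (hg | hg) (hh | hh)
    · exact Or.inl (E.mul_mem hg hh)
    · refine Or.inr ?_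
      have h1 : x * (g * h) = g * (x * h) := by
        calc x * (g * h) = (x * g) * h := by group
          _ = (g * x) * h := by rw [hc g hg]
          _ = g * (x * h) := by group
      rw [h1]
      exact E.mul_mem hg hh
    · refine Or.inr ?_
      have h1 : x * (g * h) = (x * g) * h := by group
      rw [h1]
      exact E.mul_mem hg hh
    · refine Or.inl ?_
      have h1 : g * h = (x * g) * (x * h) := by
        calc g * h = (x * x) * g * h := by rw [hx, one_mul]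
          _ = x * (x * g) * h := by group
          _ = (x * g) * x * h := by rw [hc (x * g) hg]
          _ = _ := by group
      rw [h1]
      exact E.mul_mem hg hh
  inv_mem' := by
    rintro g (hg | hg)
    · exact Or.inl (E.inv_mem hg)
    · refine Or.inr ?_
      have hxi : x⁻¹ = x := inv_eq_of_mul_eq_one_left hx
      have h2 : g⁻¹ = (x * g)⁻¹ * x := by group
      have h3 : x * g⁻¹ = (x * g)⁻¹ := by
        rw [h2, ← mul_assoc, hc _ (E.inv_mem hg), mul_assoc, hx, mul_one]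
      rw [h3]
      exact E.inv_mem hg

theorem mem_ext {E : Subgroup G} {x : G} {hx : x * x = 1} {hc : ∀ w ∈ E, x * w = w * x}
    {g : G} : g ∈ ext E x hx hc ↔ g ∈ E ∨ ∃ w ∈ E, g = x * w := by
  constructor
  · rintro (h | h)
    · exact Or.inl h
    · refine Or.inr ⟨x * g, h, ?_⟩
      rw [← mul_assoc, hx, one_mul]
  · rintro (h | ⟨w, hw, rfl⟩)
    · exact Or.inl h
    · refine Or.inr ?_
      rw [← mul_assoc, hx, one_mul]
      exact hw

theorem card_ext [Finite G] {E : Subgroup G} {x : G} {hx : x * x = 1}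
    {hc : ∀ w ∈ E, x * w = w * x} (hxE : x ∉ E) :
    Nat.card (ext E x hx hc) = 2 * Nat.card E := by
  have h1 : Nat.card (Bool × E) = 2 * Nat.card E := by
    rw [Nat.card_prod]; simp
  rw [← h1]
  symm
  apply Nat.card_congr
  refine Equiv.ofBijective (fun p => ⟨if p.1 then x * (p.2 : G) else (p.2 : G), ?_⟩) ⟨?_, ?_⟩
  · split_ifs
    · exact mem_ext.2 (Or.inr ⟨_, p.2.2, rfl⟩)
    · exact mem_ext.2 (Or.inl p.2.2)
  · rintro ⟨a, v⟩ ⟨b, w⟩ h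
    have h2 : (if a then x * (v : G) else (v : G)) = (if b then x * (w : G) else (w : G)) :=
      congrArg Subtype.val h
    cases a <;> cases b
    · simp only [Bool.false_eq_true, if_false] at h2
      rw [Subtype.ext h2]
    · exfalso
      simp only [Bool.false_eq_true, if_false, if_true] at h2
      apply hxE
      have : x = (v : G) * (w : G)⁻¹ := by rw [h2]; group
      rw [this]
      exact E.mul_mem v.2 (E.inv_mem w.2)
    · exfalso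
      simp only [Bool.false_eq_true, if_false, if_true] at h2
      apply hxE
      have : x = (w : G) * (v : G)⁻¹ := by rw [← h2]; group
      rw [this]
      exact E.mul_mem w.2 (E.inv_mem v.2)
    · simp only [if_true] at h2
      rw [Subtype.ext (mul_left_cancel h2)]
  · rintro ⟨g, hg⟩
    rcases mem_ext.1 hg with h | ⟨w, hw, rfl⟩
    · exact ⟨(false, ⟨g, h⟩), by simp⟩
    · exact ⟨(true, ⟨w, hw⟩), by simp⟩

theorem Hyp.step [Finite G] (H : Hyp Γ Z D s z₀ c) {E : Subgroup G} {j : ℕ}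
    (hE : PE Γ D j E) (hD : ∃ b ∈ D, b ≠ 1) (T : ℕ) (hT : 2 ^ (Nat.card D + 1) < T)
    (hc : Nat.card D * (T * Nat.card E) * 2 ^ (Nat.card D * (Nat.card E + T)) ≤ c) :
    ∃ E' : Subgroup G, PE Γ D (j + 1) E' := by
  obtain ⟨x, hx, hx2, hxE, hxx, hgood⟩ := H.newx hE.le T hT hc
  have hc1 : ∀ w ∈ E, x * w = w * x := by
    intro w hw
    have := hxE w hw 1 D.one_mem
    simpa using this
  have hxE' : x ∉ E := by
    intro h
    obtain ⟨b, hb, hb1⟩ := hD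
    apply hgood x⁻¹ (E.inv_mem h) b hb hb1
    rw [mul_inv_cancel]
    exact (Tb Γ b).one_mem
  -- `w` commutes with `d x d⁻¹`
  have hEx : ∀ w ∈ E, ∀ d ∈ D, w * (d * x * d⁻¹) = (d * x * d⁻¹) * w := by
    intro w hw d hd
    apply ep_eq_one.1
    rw [ep_conj', ep_symm]
    have h2 := hxE w hw d⁻¹ (D.inv_mem hd)
    rw [inv_inv] at h2
    exact ep_eq_one.2 h2
  refine ⟨ext E x hx2 hc1, ?_, ?_, ?_, ?_, ?_⟩
  · intro g hg
    rcases mem_ext.1 hg with h | ⟨w, hw, rfl⟩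
    · exact hE.le h
    · exact Γ.mul_mem hx (hE.le hw)
  · rw [card_ext hxE', hE.card, pow_succ, mul_comm]
  · intro g hg
    rcases mem_ext.1 hg with h | ⟨w, hw, rfl⟩
    · exact hE.inv2 g h
    · calc x * w * (x * w) = x * (w * x) * w := by group
        _ = x * (x * w) * w := by rw [hc1 w hw]
        _ = (x * x) * (w * w) := by group
        _ = 1 := by rw [hx2, hE.inv2 w hw, one_mul]
  · intro g hg h hh d hd
    -- reduce to generators
    have hcw : ∀ w ∈ E, Commute g (d * w * d⁻¹) ∧ Commute g (d * x * d⁻¹) := by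
      intro w hw
      rcases mem_ext.1 hg with h1 | ⟨v, hv, rfl⟩
      · exact ⟨hE.comm g h1 w hw d hd, hEx g h1 d hd⟩
      · have h2 : Commute v (d * w * d⁻¹) := hE.comm v hv w hw d hd
        have h3 : Commute v (d * x * d⁻¹) := hEx v hv d hd
        have h4 : Commute x (d * w * d⁻¹) := hxE w hw d hd
        have h5 : Commute x (d * x * d⁻¹) := hxx d hd
        exact ⟨h4.mul_left h2, h5.mul_left h3⟩
    rcases mem_ext.1 hh with h1 | ⟨w, hw, rfl⟩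
    · exact (hcw h h1).1
    · have h2 : d * (x * w) * d⁻¹ = (d * x * d⁻¹) * (d * w * d⁻¹) := by group
      rw [h2]
      exact ((hcw w hw).2.mul_right (hcw w hw).1).eq
  · intro g hg hg1 b hb hb1
    rcases mem_ext.1 hg with h | ⟨w, hw, rfl⟩
    · exact hE.good g h hg1 b hb hb1
    · exact hgood w hw b hb hb1

/-- the constant. -/
def cst (l : ℕ) : ℕ :=
  2 ^ l * ((2 ^ (2 ^ l + 1) + 1) * 2 ^ l) * 2 ^ (2 ^ l * (2 ^ l + (2 ^ (2 ^ l + 1) + 1)))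

theorem Hyp.exE [Finite G] {l : ℕ} (H : Hyp Γ Z D s z₀ (cst l)) (hDl : Nat.card D ≤ 2 ^ l)
    (hD : ∃ b ∈ D, b ≠ 1) : ∀ j ≤ l, ∃ E : Subgroup G, PE Γ D j E := by
  intro j
  induction j with
  | zero =>
    intro _
    refine ⟨⊥, bot_le, by simp, ?_, ?_, ?_⟩
    · intro x hx
      rw [Subgroup.mem_bot] at hx
      rw [hx, one_mul]
    · intro x hx y hy d _
      rw [Subgroup.mem_bot] at hx
      rw [hx, one_mul, mul_one]
    · intro x hx hx1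
      exact absurd (Subgroup.mem_bot.1 hx) hx1
  | succ j ih =>
    intro hj
    obtain ⟨E, hE⟩ := ih (by omega)
    refine H.step hE hD (2 ^ (2 ^ l + 1) + 1) ?_ ?_
    · have : 2 ^ (Nat.card D + 1) ≤ 2 ^ (2 ^ l + 1) := Nat.pow_le_pow_right (by norm_num) (by omega)
      omega
    · have h1 : Nat.card E ≤ 2 ^ l := by
        rw [hE.card]; exact Nat.pow_le_pow_right (by norm_num) (by omega)
      unfold cst
      have h2 : Nat.card D * (Nat.card E + (2 ^ (2 ^ l + 1) + 1))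
          ≤ 2 ^ l * (2 ^ l + (2 ^ (2 ^ l + 1) + 1)) := by
        gcongr
      have h3 : 2 ^ (Nat.card D * (Nat.card E + (2 ^ (2 ^ l + 1) + 1)))
          ≤ 2 ^ (2 ^ l * (2 ^ l + (2 ^ (2 ^ l + 1) + 1))) := Nat.pow_le_pow_right (by norm_num) h2
      gcongr

end Pool.Agent.Helper3.LS
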