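import Pool.Agent.Helper3.LS.Build

/-!
LemS, part 2: eigenvectors and the final counting.
-/

set_option autoImplicit false

namespace Pool.Agent.Helper3.LS

open Pool.Agent.Helper12.TwoLen

section eig

variable {V : Type*} [CommGroup V]

theorem sq_eq_one [Finite V] (hodd : Odd (Nat.card V)) {v : V} (h : v ^ 2 = 1) : v = 1 := by
  have h1 : orderOf v ∣ 2 := orderOf_dvd_of_pow_eq_one h
  have h2 : orderOf v ∣ Nat.card V := orderOf_dvd_natCard v
  have h3 : orderOf v ∣ 1 := by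
    have := Nat.dvd_gcd h1 h2
    rwa [show Nat.gcd 2 (Nat.card V) = 1 from (Nat.coprime_two_left.2 hodd)] at this
  exact orderOf_eq_one_iff.1 (Nat.dvd_one.1 h3)

/-- eigenvectors with distinct characters are independent. -/
theorem eig_indep [Finite V] (hodd : Odd (Nat.card V)) {ι : Type*} (S : Set (MulAut V))
    (χ : ι → MulAut V → ℤˣ) (hd : ∀ i j, i ≠ j → ∃ e ∈ S, χ i e ≠ χ j e) (F : Finset ι) :
    ∀ w : ι → V, (∀ i ∈ F, ∀ e ∈ S, e (w i) = (w i) ^ ((χ i e : ℤˣ) : ℤ)) →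
      ∏ i ∈ F, w i = 1 → ∀ i ∈ F, w i = 1 := by
  classical
  induction F using Finset.induction_on with
  | empty => intro w _ _ i hi; simp at hi
  | insert a F ha ih =>
    intro w hw hprod
    rw [Finset.prod_insert ha] at hprod
    have key : ∀ i ∈ F, w i = 1 := by
      intro i hi
      have hia : i ≠ a := fun h => ha (h ▸ hi)
      obtain ⟨e, he, hne⟩ := hd i a hia
      let w' : ι → V := fun k => (w k) ^ (((χ k e : ℤˣ) : ℤ) - ((χ a e : ℤˣ) : ℤ))
      have h1 : ∀ k ∈ F, ∀ e' ∈ S, e' (w' k) = (w' k) ^ ((χ k e' : ℤˣ) : ℤ) := by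
        intro k hk e' he'
        change e' ((w k) ^ (((χ k e : ℤˣ) : ℤ) - ((χ a e : ℤˣ) : ℤ))) = _
        rw [map_zpow, hw k (Finset.mem_insert_of_mem hk) e' he', ← zpow_mul, ← zpow_mul,
          mul_comm]
      have h2 : ∏ k ∈ F, w' k = 1 := by
        have h3 : e (w a * ∏ k ∈ F, w k) = 1 := by rw [hprod, map_one]
        rw [map_mul, map_prod, hw a (Finset.mem_insert_self _ _) e he] at h3
        have h4 : ∏ k ∈ F, e (w k) = ∏ k ∈ F, (w k) ^ ((χ k e : ℤˣ) : ℤ) :=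
          Finset.prod_congr rfl (fun k hk => hw k (Finset.mem_insert_of_mem hk) e he)
        rw [h4] at h3
        have h5 : (w a * ∏ k ∈ F, w k) ^ ((χ a e : ℤˣ) : ℤ) = 1 := by rw [hprod, one_zpow]
        rw [mul_zpow, ← Finset.prod_zpow] at h5
        have h6 : ∏ k ∈ F, w' k = (∏ k ∈ F, (w k) ^ ((χ k e : ℤˣ) : ℤ)) *
            (∏ k ∈ F, (w k) ^ ((χ a e : ℤˣ) : ℤ))⁻¹ := by
          rw [← Finset.prod_inv_distrib, ← Finset.prod_mul_distrib]
          apply Finset.prod_congr rfl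
          intro k _
          change (w k) ^ (((χ k e : ℤˣ) : ℤ) - ((χ a e : ℤˣ) : ℤ)) = _
          rw [zpow_sub]
        rw [h6, mul_inv_eq_one]
        exact mul_left_cancel (h3.trans h5.symm)
      have h7 : w' i = 1 := ih w' h1 h2 i hi
      have h8 : (w i) ^ (((χ i e : ℤˣ) : ℤ) - ((χ a e : ℤˣ) : ℤ)) = 1 := h7
      rcases Int.units_eq_one_or (χ i e) with h9 | h9 <;>
        rcases Int.units_eq_one_or (χ a e) with h10 | h10
      · exact absurd (h9.trans h10.symm) hne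
      · rw [h9, h10] at h8
        apply sq_eq_one hodd
        have h11 : (w i) ^ (2 : ℤ) = 1 := by simpa using h8
        exact_mod_cast h11
      · rw [h9, h10] at h8
        apply sq_eq_one hodd
        have h11 : (w i) ^ (-2 : ℤ) = 1 := by simpa using h8
        rw [zpow_neg, inv_eq_one] at h11
        exact_mod_cast h11
      · exact absurd (h9.trans h10.symm) hne
    intro i hi
    rcases Finset.mem_insert.1 hi with rfl | hi
    · rw [Finset.prod_eq_one key, mul_one] at hprod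
      exact hprod
    · exact key i hi

/-- common eigenvector of commuting involutions. -/
theorem exists_eig [Nontrivial V] (S : Set (MulAut V)) (h2 : ∀ e ∈ S, e * e = 1)
    (hc : ∀ e ∈ S, ∀ f ∈ S, e * f = f * e) (F : Finset (MulAut V)) (hF : ↑F ⊆ S) :
    ∃ v : V, v ≠ 1 ∧ ∀ e ∈ F, ∃ u : ℤˣ, e v = v ^ (u : ℤ) := by
  classical
  induction F using Finset.induction_on with
  | empty =>
    obtain ⟨v, hv⟩ := exists_ne (1 : V)
    exact ⟨v, hv, fun e he => by simp at he⟩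
  | insert a F ha ih =>
    rw [Finset.coe_insert, Set.insert_subset_iff] at hF
    obtain ⟨haS, hF'⟩ := hF
    obtain ⟨v, hv, h3⟩ := ih hF'
    have haa : ∀ x : V, a (a x) = x := by
      intro x
      have := congrArg (fun g : MulAut V => g x) (h2 a haS)
      simpa using this
    by_cases h4 : v * a v = 1
    · refine ⟨v, hv, fun e he => ?_⟩
      rcases Finset.mem_insert.1 he with rfl | he
      · refine ⟨-1, ?_⟩
        have : e v = v⁻¹ := (inv_eq_of_mul_eq_one_right h4).symm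
        rw [this]; simp
      · exact h3 e he
    · refine ⟨v * a v, h4, fun e he => ?_⟩
      rcases Finset.mem_insert.1 he with rfl | he
      · refine ⟨1, ?_⟩
        rw [map_mul, haa, mul_comm]
        simp
      · obtain ⟨u, hu⟩ := h3 e he
        refine ⟨u, ?_⟩
        have h5 : e (a v) = a (e v) := by
          have := congrArg (fun g : MulAut V => g v) (hc e (hF' he) a haS)
          simpa using this
        rw [map_mul, h5, hu, map_zpow, mul_zpow]

end eig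

section count

variable {G : Type*} [Group G] {Γ Z D : Subgroup G} {s z₀ : G} {c : ℕ}

/-- the homomorphism `x ↦ b x b⁻¹ x⁻¹` on `E`. -/
def bhom (E D : Subgroup G) (hE : ∀ x ∈ E, ∀ y ∈ E, ∀ d ∈ D, x * (d * y * d⁻¹) = (d * y * d⁻¹) * x)
    (b : G) (hb : b ∈ D) : E →* G where
  toFun x := b * (x : G) * b⁻¹ * (x : G)⁻¹
  map_one' := by simp
  map_mul' := by
    rintro ⟨x, hx⟩ ⟨y, hy⟩
    have h1 : x⁻¹ * (b * y * b⁻¹) = (b * y * b⁻¹) * x⁻¹ := hE _ (E.inv_mem hx) y hy b hb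
    have h2 : y⁻¹ * x⁻¹ = x⁻¹ * y⁻¹ := by
      have := hE _ (E.inv_mem hy) _ (E.inv_mem hx) 1 D.one_mem
      simpa using this
    change b * (x * y) * b⁻¹ * (x * y)⁻¹ = (b * x * b⁻¹ * x⁻¹) * (b * y * b⁻¹ * y⁻¹)
    calc b * (x * y) * b⁻¹ * (x * y)⁻¹ = (b * x * b⁻¹) * (b * y * b⁻¹) * (y⁻¹ * x⁻¹) := by group
      _ = (b * x * b⁻¹) * (b * y * b⁻¹) * (x⁻¹ * y⁻¹) := by rw [h2]
      _ = (b * x * b⁻¹) * ((b * y * b⁻¹) * x⁻¹) * y⁻¹ := by group
      _ = (b * x * b⁻¹) * (x⁻¹ * (b * y * b⁻¹)) * y⁻¹ := by rw [h1]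
      _ = _ := by group

theorem PE.exists_good [Finite G] (hctx : Ctx Γ s) (hDΓ : Nrm D Γ) {E : Subgroup G} {l : ℕ}
    (hE : PE Γ D l E) (hDl : Nat.card D ≤ 2 ^ l) (lam : G → ℤˣ) :
    ∃ g ∈ Γ, ∀ b ∈ D, b ≠ 1 → ∃ e ∈ E,
      ep g (b * e * b⁻¹) * lam (b * e * b⁻¹) ≠ ep g e * lam e := by
  classical
  by_contra hcon
  push Not at hcon
  let Fb : {b : D // b ≠ 1} → Subgroup G := fun b =>
    (bhom E D hE.comm (b : D) (b : D).2).range
  -- cardinality
  have hinj : ∀ b : {b : D // b ≠ 1}, Function.Injective (bhom E D hE.comm (b : D) (b : D).2) := by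
    intro b
    rw [injective_iff_map_eq_one]
    rintro ⟨x, hx⟩ h
    have h1 : ((b : D) : G) * x * ((b : D) : G)⁻¹ * x⁻¹ = 1 := h
    by_contra hne
    apply hE.good x hx (fun h2 => hne (Subtype.ext h2)) (b : D) (b : D).2
      (fun h2 => b.2 (Subtype.ext h2))
    refine ⟨hE.le hx, fun h _ => ?_⟩
    rw [h1]; simp
  have hcard : ∀ b, Nat.card (Fb b) = 2 ^ l := by
    intro b
    rw [← hE.card]
    exact (Nat.card_congr (MonoidHom.ofInjective (hinj b)).toEquiv).symm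
  have hFle : ∀ b, Fb b ≤ Γ := by
    rintro b _ ⟨x, rfl⟩
    exact Γ.mul_mem (hDΓ _ (b : D).2 _ (hE.le x.2)) (Γ.inv_mem (hE.le x.2))
  have hcen : ∀ b, 2 ^ l * Nat.card (cen Γ (Fb b)) ≤ Nat.card Γ := by
    intro b
    have h1 := hctx.card_mul_cen_le (Fb b) (hFle b) ?_
    · rwa [hcard] at h1
    · rintro _ ⟨x, rfl⟩ h2
      by_contra hne
      have hx1 : (x : G) ≠ 1 := by
        intro h3
        apply hne
        have : x = 1 := Subtype.ext h3
        rw [this, map_one]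
      exact hE.good x x.2 hx1 (b : D) (b : D).2 (fun h2 => b.2 (Subtype.ext h2))
        ⟨hE.le x.2, h2⟩
  -- the bad condition
  let bad : {b : D // b ≠ 1} → G → Prop := fun b g => g ∈ Γ ∧ ∀ e ∈ E,
    ep g (((b : D) : G) * e * ((b : D) : G)⁻¹) * lam (((b : D) : G) * e * ((b : D) : G)⁻¹)
      = ep g e * lam e
  have hbad : ∀ g : Γ, ∃ b, bad b (g : G) := by
    intro g
    obtain ⟨b, hb, hb1, h⟩ := hcon g g.2
    exact ⟨⟨⟨b, hb⟩, fun h => hb1 (congrArg Subtype.val h)⟩, g.2, h⟩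
  choose β hβ using hbad
  -- for each b which is bad for somebody, choose a representative
  let r : {b : D // b ≠ 1} → G := fun b => if h : ∃ g, bad b g then h.choose else 1
  have hr : ∀ b g, bad b g → bad b (r b) := by
    intro b g hg
    have h : ∃ g, bad b g := ⟨g, hg⟩
    have : r b = h.choose := dif_pos h
    rw [this]
    exact h.choose_spec
  have hdiff : ∀ b g, bad b g → g * (r b)⁻¹ ∈ cen Γ (Fb b) := by
    intro b g hg
    have hrb := hr b g hg
    rw [mem_cen]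
    refine ⟨Γ.mul_mem hg.1 (Γ.inv_mem hrb.1), ?_⟩
    rintro _ ⟨x, rfl⟩
    have hxΓ : (x : G) ∈ Γ := hE.le x.2
    have hbx : ((b : D) : G) * (x : G) * ((b : D) : G)⁻¹ ∈ Γ := hDΓ _ (b : D).2 _ hxΓ
    have h1 := hg.2 x x.2
    have h2 := hrb.2 x x.2
    have h3 : ep g (((b : D) : G) * (x : G) * ((b : D) : G)⁻¹ * (x : G)⁻¹)
        = lam (((b : D) : G) * (x : G) * ((b : D) : G)⁻¹) * lam x := by
      rw [hctx.ep_mul_right hg.1 hbx (Γ.inv_mem hxΓ), hctx.ep_inv_right hg.1 hxΓ]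
      have h4 : ∀ p q m n : ℤˣ, p * m = q * n → p * q = m * n := by decide
      exact h4 _ _ _ _ h1
    have h3' : ep (r b) (((b : D) : G) * (x : G) * ((b : D) : G)⁻¹ * (x : G)⁻¹)
        = lam (((b : D) : G) * (x : G) * ((b : D) : G)⁻¹) * lam x := by
      rw [hctx.ep_mul_right hrb.1 hbx (Γ.inv_mem hxΓ), hctx.ep_inv_right hrb.1 hxΓ]
      have h4 : ∀ p q m n : ℤˣ, p * m = q * n → p * q = m * n := by decide
      exact h4 _ _ _ _ h2
    have h5 : ep (g * (r b)⁻¹) (((b : D) : G) * (x : G) * ((b : D) : G)⁻¹ * (x : G)⁻¹) = 1 := by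
      rw [hctx.ep_mul_left hg.1 (Γ.inv_mem hrb.1) (Γ.mul_mem hbx (Γ.inv_mem hxΓ)),
        hctx.ep_inv_left hrb.1 (Γ.mul_mem hbx (Γ.inv_mem hxΓ)), h3, h3']
      exact Int.units_mul_self _
    have h6 := ep_eq_one.1 h5
    exact h6.symm
  have : Fintype {b : D // b ≠ 1} := Fintype.ofFinite _
  have h3 : Nat.card Γ ≤ Nat.card (Σ b : {b : D // b ≠ 1}, cen Γ (Fb b)) := by
    refine Nat.card_le_card_of_injective
      (fun g => ⟨β g, ⟨(g : G) * (r (β g))⁻¹, hdiff _ _ (hβ g)⟩⟩) ?_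
    intro x y h
    have h4 : β x = β y := congrArg Sigma.fst h
    have h5 : (x : G) * (r (β x))⁻¹ = (y : G) * (r (β y))⁻¹ :=
      congrArg (fun z : (Σ b : {b : D // b ≠ 1}, cen Γ (Fb b)) => (z.2 : G)) h
    rw [h4] at h5
    exact Subtype.ext (mul_right_cancel h5)
  rw [Nat.card_sigma] at h3
  have h4 : 2 ^ l * Nat.card Γ ≤ Nat.card {b : D // b ≠ 1} * Nat.card Γ := by
    calc 2 ^ l * Nat.card Γ ≤ 2 ^ l * ∑ b, Nat.card (cen Γ (Fb b)) := Nat.mul_le_mul_left _ h3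
      _ = ∑ b, 2 ^ l * Nat.card (cen Γ (Fb b)) := Finset.mul_sum _ _ _
      _ ≤ ∑ _b : {b : D // b ≠ 1}, Nat.card Γ := Finset.sum_le_sum (fun b _ => hcen b)
      _ = _ := by rw [Finset.sum_const, smul_eq_mul, Finset.card_univ, ← Nat.card_eq_fintype_card]
  have h5 : Nat.card {b : D // b ≠ 1} < Nat.card D := by
    have := Fintype.ofFinite D
    rw [Nat.card_eq_fintype_card, Nat.card_eq_fintype_card]
    exact Fintype.card_subtype_lt (p := fun b : D => b ≠ 1) (x := 1) (by simp)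
  have h6 : 0 < Nat.card Γ := Nat.card_pos
  have h7 := Nat.le_of_mul_le_mul_right h4 h6
  omega

end count

instance finMulAut (V : Type) [CommGroup V] [Finite V] : Finite (MulAut V) :=
  Finite.of_injective (fun f : MulAut V => (f : V → V)) DFunLike.coe_injective

theorem lemS : LemS := by
  classical
  intro l
  refine ⟨cst l, ?_⟩
  intro V _ _ _ Γ Z D z₀ s hodd hDl hDΓ hDZ hZΓ hZc hsq hs halt hz0 hbig
  obtain ⟨hsΓ, hsv⟩ := hs
  by_cases hD : ∃ b ∈ D, b ≠ 1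
  swap
  · push Not at hD
    obtain ⟨v, hv⟩ := exists_ne (1 : V)
    exact ⟨v, hv, fun δ hδ => by rw [hD δ hδ]; rfl⟩
  have hctx : Ctx Γ s := by
    refine ⟨?_, ?_, ?_, halt⟩
    · intro g
      ext v
      rw [MulAut.mul_apply, MulAut.mul_apply, hsv, hsv, map_inv]
    · intro h
      obtain ⟨v, hv⟩ := exists_ne (1 : V)
      apply hv
      apply sq_eq_one hodd
      have h1 := hsv v
      rw [h, MulAut.one_apply] at h1
      rw [sq]
      nth_rw 1 [h1]
      exact inv_mul_cancel v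
    · ext v
      rw [MulAut.mul_apply, hsv, hsv, inv_inv]
      rfl
  have H : Hyp Γ Z D s z₀ (cst l) := ⟨hctx, hDΓ, hDZ, hZΓ, hZc, hsq, hz0, hbig⟩
  obtain ⟨E, hE⟩ := H.exE hDl hD l le_rfl
  -- the set of conjugates
  let S : Set (MulAut V) := {x | ∃ e ∈ E, ∃ d ∈ D, x = d * e * d⁻¹}
  have hS2 : ∀ e ∈ S, e * e = 1 := by
    rintro _ ⟨e, he, d, hd, rfl⟩
    calc d * e * d⁻¹ * (d * e * d⁻¹) = d * (e * e) * d⁻¹ := by group
      _ = 1 := by rw [hE.inv2 e he, mul_one, mul_inv_cancel]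
  have hSc : ∀ e ∈ S, ∀ f ∈ S, e * f = f * e := by
    rintro _ ⟨e, he, d, hd, rfl⟩ _ ⟨f, hf, d', hd', rfl⟩
    have h1 := hE.comm e he f hf (d⁻¹ * d') (D.mul_mem (D.inv_mem hd) hd')
    have h2 : d * (e * (d⁻¹ * d' * f * (d⁻¹ * d')⁻¹)) * d⁻¹
        = d * (d⁻¹ * d' * f * (d⁻¹ * d')⁻¹ * e) * d⁻¹ := by rw [h1]
    calc d * e * d⁻¹ * (d' * f * d'⁻¹) = d * (e * (d⁻¹ * d' * f * (d⁻¹ * d')⁻¹)) * d⁻¹ := by group
      _ = d * (d⁻¹ * d' * f * (d⁻¹ * d')⁻¹ * e) * d⁻¹ := h2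
      _ = d' * f * d'⁻¹ * (d * e * d⁻¹) := by group
  have hSΓ : S ⊆ Γ := by
    rintro _ ⟨e, he, d, hd, rfl⟩
    exact hDΓ d hd e (hE.le he)
  have hSD : ∀ e ∈ S, ∀ d ∈ D, d⁻¹ * e * d ∈ S := by
    rintro _ ⟨e, he, d, hd, rfl⟩ d' hd'
    refine ⟨e, he, d'⁻¹ * d, D.mul_mem (D.inv_mem hd') hd, by group⟩
  have hES : ∀ e ∈ E, e ∈ S := fun e he => ⟨e, he, 1, D.one_mem, by simp⟩
  have hSfin : S.Finite := Set.toFinite S
  obtain ⟨v0, hv0, hev0⟩ := exists_eig S hS2 hSc hSfin.toFinset (by simp)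
  have hev0' : ∀ e ∈ S, ∃ u : ℤˣ, e v0 = v0 ^ (u : ℤ) := fun e he =>
    hev0 e (hSfin.mem_toFinset.2 he)
  let lam : MulAut V → ℤˣ := fun e => if h : e ∈ S then (hev0' e h).choose else 1
  have hlam : ∀ e ∈ S, e v0 = v0 ^ ((lam e : ℤˣ) : ℤ) := by
    intro e he
    have h1 : lam e = (hev0' e he).choose := dif_pos he
    rw [h1]
    exact (hev0' e he).choose_spec
  obtain ⟨g, hg, hgood⟩ := hE.exists_good hctx hDΓ hDl lam
  -- the eigenvector `g v0`
  have hsg : ∀ (u : ℤˣ) (v : V), (sg s u) v = v ^ (u : ℤ) := by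
    intro u v
    rcases Int.units_eq_one_or u with rfl | rfl
    · rw [sg_one]; simp
    · rw [sg_neg_one, hsv]; simp
  let lg : MulAut V → ℤˣ := fun e => ep g e * lam e
  have hgv : ∀ e ∈ S, e (g v0) = (g v0) ^ ((lg e : ℤˣ) : ℤ) := by
    intro e he
    have h1 : e (g v0) = (e * g) v0 := rfl
    rw [h1, hctx.ep_spec (hSΓ he) hg, MulAut.mul_apply, MulAut.mul_apply, hsg, hlam e he,
      map_zpow, ← zpow_mul, ep_symm]
    change (g v0) ^ (((lam e : ℤˣ) : ℤ) * ((ep g e : ℤˣ) : ℤ))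
      = (g v0) ^ (((ep g e * lam e : ℤˣ)) : ℤ)
    rw [Units.val_mul, mul_comm]
  have hfin : Fintype D := Fintype.ofFinite D
  let vd : D → V := fun d => (d : MulAut V) (g v0)
  let χ : D → MulAut V → ℤˣ := fun d e => lg ((d : MulAut V)⁻¹ * e * (d : MulAut V))
  have hvd : ∀ d : D, ∀ e ∈ S, e (vd d) = (vd d) ^ ((χ d e : ℤˣ) : ℤ) := by
    intro d e he
    have h1 : e (vd d) = (d : MulAut V) (((d : MulAut V)⁻¹ * e * (d : MulAut V)) (g v0)) := by
      have h2 : (d : MulAut V) * ((d : MulAut V)⁻¹ * e * (d : MulAut V)) = e * (d : MulAut V) := by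
        group
      exact (congrArg (fun f : MulAut V => f (g v0)) h2).symm
    rw [h1, hgv _ (hSD e he d d.2), map_zpow]
  have hdist : ∀ i j : D, i ≠ j → ∃ e ∈ S, χ i e ≠ χ j e := by
    intro i j hij
    have hb : (j : MulAut V)⁻¹ * (i : MulAut V) ∈ D := D.mul_mem (D.inv_mem j.2) i.2
    have hb1 : (j : MulAut V)⁻¹ * (i : MulAut V) ≠ 1 := by
      intro h
      apply hij
      apply Subtype.ext
      exact (inv_mul_eq_one.1 h).symm
    obtain ⟨e, he, hne⟩ := hgood _ hb hb1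
    refine ⟨(i : MulAut V) * e * (i : MulAut V)⁻¹, ⟨e, he, i, i.2, rfl⟩, ?_⟩
    intro h
    apply hne
    have h1 : χ i ((i : MulAut V) * e * (i : MulAut V)⁻¹) = lg e := by
      exact congrArg lg (by group)
    have h2 : χ j ((i : MulAut V) * e * (i : MulAut V)⁻¹)
        = lg ((j : MulAut V)⁻¹ * (i : MulAut V) * e * ((j : MulAut V)⁻¹ * (i : MulAut V))⁻¹) := by
      exact congrArg lg (by group)
    rw [h1, h2] at h
    exact h.symm
  refine ⟨∏ d : D, vd d, ?_, ?_⟩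
  · intro h
    have h1 := eig_indep hodd S χ hdist Finset.univ vd (fun i _ => hvd i) h 1 (Finset.mem_univ _)
    have h2 : g v0 = 1 := h1
    exact hv0 ((MulEquiv.map_eq_one_iff g).1 h2)
  · intro δ hδ
    rw [map_prod]
    exact Fintype.prod_equiv (Equiv.mulLeft (⟨δ, hδ⟩ : D)) _ _ (fun d => rfl)

end Pool.Agent.Helper3.LS
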