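import Pool.Agent.Helper12.Defs

/-!
LemS, part 0: sign pairing on a group with commutators in `{1, s}` and counting of characters.
-/

set_option autoImplicit false

namespace Pool.Agent.Helper3.LS

open Pool.Agent.Helper12.TwoLen

/-- A finite group has at most `|Q|` homomorphisms to `±1`. -/
theorem card_hom_le (Q : Type*) [Group Q] [Finite Q] :
    Nat.card (Q →* ℤˣ) ≤ Nat.card Q := by
  classical
  have := Fintype.ofFinite Q
  have h1 := linearIndependent_monoidHom Q ℚ
  let j : ℤˣ →* ℚ := ((Int.castRingHom ℚ).toMonoidHom).comp (Units.coeHom ℤ)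
  have hj : Function.Injective j := by
    intro a b h
    have : ((a : ℤ) : ℚ) = ((b : ℤ) : ℚ) := h
    exact Units.ext (by exact_mod_cast this)
  let c : (Q →* ℤˣ) → (Q →* ℚ) := fun f => j.comp f
  have hc : Function.Injective c := by
    intro f g h
    ext x
    have : j (f x) = j (g x) := DFunLike.congr_fun h x
    rw [hj this]
  have h2 := h1.comp c hc
  have : Finite (Q →* ℤˣ) := by
    have : Finite (Q → ℤˣ) := inferInstance
    exact Finite.of_injective (fun f : Q →* ℤˣ => (f : Q → ℤˣ)) DFunLike.coe_injective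
  have := Fintype.ofFinite (Q →* ℤˣ)
  have h3 := h2.fintype_card_le_finrank
  rw [Module.finrank_fintype_fun_eq_card] at h3
  rw [Nat.card_eq_fintype_card, Nat.card_eq_fintype_card]
  exact h3

/-- Left range is not larger than right range. -/
theorem card_range_le {A C : Type*} [Group A] [Group C] [Finite A] [Finite C]
    (B : A →* C →* ℤˣ) : Nat.card B.range ≤ B.flip.ker.index := by
  classical
  have hK : ∀ φ : B.range, B.flip.ker ≤ (φ : C →* ℤˣ).ker := by
    rintro ⟨φ, a, rfl⟩ c hc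
    have h1 : B.flip c = 1 := hc
    have h2 : B.flip c a = 1 := by rw [h1]; rfl
    exact h2
  let F : B.range → ((C ⧸ B.flip.ker) →* ℤˣ) := fun φ =>
    QuotientGroup.lift B.flip.ker (φ : C →* ℤˣ) (hK φ)
  have hF : Function.Injective F := by
    intro φ ψ h
    apply Subtype.ext
    ext c
    have h1 := DFunLike.congr_fun h (QuotientGroup.mk c)
    have h2 : (φ : C →* ℤˣ) c = (ψ : C →* ℤˣ) c := h1
    rw [h2]
  have : Finite ((C ⧸ B.flip.ker) →* ℤˣ) :=
    Finite.of_injective (fun f : (C ⧸ B.flip.ker) →* ℤˣ => (f : (C ⧸ B.flip.ker) → ℤˣ))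
      DFunLike.coe_injective
  calc Nat.card B.range ≤ Nat.card ((C ⧸ B.flip.ker) →* ℤˣ) :=
        Nat.card_le_card_of_injective F hF
    _ ≤ Nat.card (C ⧸ B.flip.ker) := card_hom_le _
    _ = B.flip.ker.index := rfl

/-- If `B` is injective on the left then `|A|` is at most the index of the right kernel. -/
theorem card_le_index {A C : Type*} [Group A] [Group C] [Finite A] [Finite C]
    (B : A →* C →* ℤˣ) (hB : Function.Injective B) : Nat.card A ≤ B.flip.ker.index := by
  refine le_trans (le_of_eq ?_) (card_range_le B)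
  exact Nat.card_congr (MonoidHom.ofInjective hB).toEquiv

section pairing

variable {G : Type*} [Group G]

/-- the sign of a pair: `1` if they commute, `-1` otherwise. -/
noncomputable def ep (g h : G) : ℤˣ := by
  classical exact if g * h = h * g then 1 else -1

/-- `Γ` has commutators in `{1, s}`, `s` a central involution of the ambient group. -/
structure Ctx (Γ : Subgroup G) (s : G) : Prop where
  sc : ∀ g : G, s * g = g * s
  s1 : s ≠ 1
  ss : s * s = 1
  alt : ∀ g ∈ Γ, ∀ h ∈ Γ, g * h = h * g ∨ g * h = s * (h * g)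

theorem ep_symm (g h : G) : ep g h = ep h g := by
  classical
  unfold ep
  simp only [eq_comm]

theorem ep_eq_one {g h : G} : ep g h = 1 ↔ g * h = h * g := by
  classical
  unfold ep
  split_ifs with h1
  · simp [h1]
  · simp only [h1, iff_false]
    decide

theorem ep_conj (d g h : G) : ep (d * g * d⁻¹) (d * h * d⁻¹) = ep g h := by
  classical
  unfold ep
  have : (d * g * d⁻¹ * (d * h * d⁻¹) = d * h * d⁻¹ * (d * g * d⁻¹)) ↔ g * h = h * g := by
    constructor
    · intro h1
      have h2 : d * (g * h) * d⁻¹ = d * (h * g) * d⁻¹ := by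
        calc d * (g * h) * d⁻¹ = d * g * d⁻¹ * (d * h * d⁻¹) := by group
          _ = d * h * d⁻¹ * (d * g * d⁻¹) := h1
          _ = d * (h * g) * d⁻¹ := by group
      exact mul_left_cancel (mul_right_cancel h2)
    · intro h1
      calc d * g * d⁻¹ * (d * h * d⁻¹) = d * (g * h) * d⁻¹ := by group
        _ = d * (h * g) * d⁻¹ := by rw [h1]
        _ = d * h * d⁻¹ * (d * g * d⁻¹) := by group
  simp only [this]

theorem ep_conj' (d g h : G) : ep g (d * h * d⁻¹) = ep (d⁻¹ * g * d) h := by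
  have := ep_conj d (d⁻¹ * g * d) h
  rw [← this]
  congr 1
  group

/-- the central element attached to a sign. -/
noncomputable def sg (s : G) (u : ℤˣ) : G := by
  classical exact if u = 1 then 1 else s

theorem sg_one (s : G) : sg s 1 = 1 := by simp [sg]

theorem sg_neg_one (s : G) : sg s (-1) = s := by
  unfold sg
  rw [if_neg (by decide)]

variable {Γ : Subgroup G} {s : G}

theorem Ctx.sg_mul (c : Ctx Γ s) (u v : ℤˣ) : sg s (u * v) = sg s u * sg s v := by
  rcases Int.units_eq_one_or u with rfl | rfl <;> rcases Int.units_eq_one_or v with rfl | rfl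
  · simp [sg_one]
  · simp [sg_one]
  · simp [sg_one]
  · have : (-1 : ℤˣ) * (-1) = 1 := by decide
    rw [this, sg_one, sg_neg_one, c.ss]

theorem Ctx.sg_central (c : Ctx Γ s) (u : ℤˣ) (g : G) : sg s u * g = g * sg s u := by
  rcases Int.units_eq_one_or u with rfl | rfl
  · simp [sg_one]
  · rw [sg_neg_one]; exact c.sc g

theorem Ctx.ep_unique (c : Ctx Γ s) {g h : G} {u : ℤˣ} (h1 : g * h = sg s u * (h * g)) :
    ep g h = u := by
  classical
  rcases Int.units_eq_one_or u with rfl | rfl
  · rw [sg_one, one_mul] at h1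
    exact ep_eq_one.2 h1
  · rw [sg_neg_one] at h1
    unfold ep
    rw [if_neg]
    intro h2
    rw [h2] at h1
    exact c.s1 (mul_eq_right.1 h1.symm)

theorem Ctx.ep_spec (c : Ctx Γ s) {g h : G} (hg : g ∈ Γ) (hh : h ∈ Γ) :
    g * h = sg s (ep g h) * (h * g) := by
  classical
  by_cases h1 : g * h = h * g
  · rw [ep_eq_one.2 h1, sg_one, one_mul, h1]
  · have h2 : ep g h = -1 := by unfold ep; rw [if_neg h1]
    rw [h2, sg_neg_one]
    exact (c.alt g hg h hh).resolve_left h1

theorem Ctx.ep_mul_left (c : Ctx Γ s) {g g' h : G} (hg : g ∈ Γ) (hg' : g' ∈ Γ) (hh : h ∈ Γ) :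
    ep (g * g') h = ep g h * ep g' h := by
  apply c.ep_unique
  calc g * g' * h = g * (g' * h) := by group
    _ = g * (sg s (ep g' h) * (h * g')) := by rw [← c.ep_spec hg' hh]
    _ = (g * sg s (ep g' h)) * (h * g') := by group
    _ = (sg s (ep g' h) * g) * (h * g') := by rw [c.sg_central]
    _ = sg s (ep g' h) * (g * h) * g' := by group
    _ = sg s (ep g' h) * (sg s (ep g h) * (h * g)) * g' := by rw [← c.ep_spec hg hh]
    _ = (sg s (ep g' h) * sg s (ep g h)) * (h * (g * g')) := by group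
    _ = sg s (ep g h * ep g' h) * (h * (g * g')) := by rw [← c.sg_mul, mul_comm]

theorem Ctx.ep_mul_right (c : Ctx Γ s) {g h h' : G} (hg : g ∈ Γ) (hh : h ∈ Γ) (hh' : h' ∈ Γ) :
    ep g (h * h') = ep g h * ep g h' := by
  rw [ep_symm, c.ep_mul_left hh hh' hg, ep_symm h g, ep_symm h' g]

theorem ep_one_left (h : G) : ep 1 h = 1 := ep_eq_one.2 (by simp)

theorem ep_one_right (h : G) : ep h 1 = 1 := ep_eq_one.2 (by simp)

theorem Ctx.ep_inv_left (c : Ctx Γ s) {g h : G} (hg : g ∈ Γ) (hh : h ∈ Γ) :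
    ep g⁻¹ h = ep g h := by
  have h1 : ep (g⁻¹ * g) h = ep g⁻¹ h * ep g h := c.ep_mul_left (Γ.inv_mem hg) hg hh
  rw [inv_mul_cancel, ep_one_left] at h1
  rcases Int.units_eq_one_or (ep g h) with h2 | h2 <;> rw [h2] at h1 ⊢
  · simpa using h1.symm
  · rcases Int.units_eq_one_or (ep g⁻¹ h) with h3 | h3
    · rw [h3] at h1; exact absurd h1 (by decide)
    · exact h3

theorem Ctx.ep_inv_right (c : Ctx Γ s) {g h : G} (hg : g ∈ Γ) (hh : h ∈ Γ) :
    ep g h⁻¹ = ep g h := by
  rw [ep_symm, c.ep_inv_left hh hg, ep_symm]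

/-- the pairing `F × Γ → ±1` as a homomorphism. -/
noncomputable def Ctx.hom (c : Ctx Γ s) (F : Subgroup G) (hF : F ≤ Γ) : F →* Γ →* ℤˣ where
  toFun g :=
    { toFun := fun h => ep (g : G) (h : G)
      map_one' := ep_one_right _
      map_mul' := fun h h' => c.ep_mul_right (hF g.2) h.2 h'.2 }
  map_one' := by ext h; simp [ep_one_left]
  map_mul' g g' := by
    ext h
    simp only [MonoidHom.coe_mk, OneHom.coe_mk, MonoidHom.mul_apply]
    rw [Subgroup.coe_mul, c.ep_mul_left (hF g.2) (hF g'.2) h.2]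

/-- centraliser of `F` in `Γ`. -/
def cen (Γ F : Subgroup G) : Subgroup G := Γ ⊓ Subgroup.centralizer (F : Set G)

theorem mem_cen {Γ F : Subgroup G} {g : G} : g ∈ cen Γ F ↔ g ∈ Γ ∧ ∀ f ∈ F, f * g = g * f := by
  unfold cen
  rw [Subgroup.mem_inf, Subgroup.mem_centralizer_iff]
  rfl

/-- (0b): if only the identity of `F` is central in `Γ`, then `|F| * |C_Γ(F)| ≤ |Γ|`. -/
theorem Ctx.card_mul_cen_le [Finite G] (c : Ctx Γ s) (F : Subgroup G) (hF : F ≤ Γ)
    (h1 : ∀ f ∈ F, (∀ g ∈ Γ, f * g = g * f) → f = 1) :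
    Nat.card F * Nat.card (cen Γ F) ≤ Nat.card Γ := by
  have h2 : Function.Injective (c.hom F hF) := by
    rw [injective_iff_map_eq_one]
    intro f hf
    apply Subtype.ext
    apply h1 _ f.2
    intro g hg
    have h3 : c.hom F hF f ⟨g, hg⟩ = 1 := by rw [hf]; rfl
    exact ep_eq_one.1 h3
  have h3 := card_le_index (c.hom F hF) h2
  have h4 := Subgroup.card_mul_index (c.hom F hF).flip.ker
  have h5 : Nat.card (c.hom F hF).flip.ker = Nat.card (cen Γ F) := by
    apply Nat.card_congr
    refine ⟨fun g => ⟨(g : Γ), mem_cen.2 ⟨(g : Γ).2, fun f hf => ?_⟩⟩,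
      fun g => ⟨⟨g, (mem_cen.1 g.2).1⟩, ?_⟩, fun _ => rfl, fun _ => rfl⟩
    · have h6 : (c.hom F hF).flip g.1 = 1 := g.2
      have h7 : (c.hom F hF).flip g.1 ⟨f, hf⟩ = 1 := by rw [h6]; rfl
      exact ep_eq_one.1 h7
    · rw [MonoidHom.mem_ker]
      ext f
      have h6 := (mem_cen.1 g.2).2 f.1 f.2
      have h7 : ep (f : G) (g : G) = 1 := ep_eq_one.2 h6
      have h8 : (c.hom F hF).flip ⟨g, (mem_cen.1 g.2).1⟩ f = ep (f : G) (g : G) := rfl
      rw [h8, h7]; rfl
  rw [h5] at h4
  rw [← h4, mul_comm]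
  exact Nat.mul_le_mul_left _ h3

/-- (0a): the elements of `Γ` commuting with `w i` for `i` in a finite type. -/
theorem Ctx.card_comm_ge [Finite G] (c : Ctx Γ s) {ι : Type*} [Finite ι] (w : ι → G)
    (hw : ∀ i, w i ∈ Γ) (S : Subgroup G) (hS : ∀ g, g ∈ Γ → (∀ i, g * w i = w i * g) → g ∈ S) :
    Nat.card Γ ≤ Nat.card S * 2 ^ Nat.card ι := by
  classical
  have := Fintype.ofFinite ι
  let φ : Γ →* (ι → ℤˣ) :=
    { toFun := fun g i => ep (g : G) (w i)
      map_one' := by ext i; simp [ep_one_left]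
      map_mul' := fun g g' => by
        funext i
        simp only [Pi.mul_apply]
        rw [Subgroup.coe_mul, c.ep_mul_left g.2 g'.2 (hw i)] }
  have h1 := Subgroup.card_mul_index φ.ker
  have h2 : φ.ker.index ≤ 2 ^ Nat.card ι := by
    rw [Subgroup.index_ker]
    calc Nat.card φ.range ≤ Nat.card (ι → ℤˣ) :=
          Nat.card_le_card_of_injective (fun x => (x : ι → ℤˣ)) Subtype.val_injective
      _ = 2 ^ Nat.card ι := by
          rw [Nat.card_eq_fintype_card, Nat.card_eq_fintype_card, Fintype.card_fun]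
          rfl
  have h3 : Nat.card φ.ker ≤ Nat.card S := by
    apply Nat.card_le_card_of_injective (fun g : φ.ker => (⟨(g : Γ), hS _ (g : Γ).2 ?_⟩ : S))
    · intro a b h
      have := congrArg Subtype.val h
      exact Subtype.ext (Subtype.ext this)
    · intro i
      have h4 : φ g = 1 := g.2
      have h5 : φ g i = 1 := by rw [h4]; rfl
      exact ep_eq_one.1 h5
  rw [← h1]
  exact Nat.mul_le_mul h3 h2

end pairing

end Pool.Agent.Helper3.LS
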